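import Mathlib
import Pool.Agent.Helper16.FieldDepDefs
import Pool.Agent.Helper16.FieldDepMain

namespace Pool.Agent.Results.MP_8a71fe_al.DependenceFromEveryPower

open Pool.Agent.Helper16.FieldDep Pool.Agent.Helper16.Koszul

/-- For every `h ≥ 1` there is a monomial ideal such that the Betti numbers of its powers
`I ^ l` do not depend on the field for `1 ≤ l < h`, and do depend on it for every `l ≥ h`. -/
theorem result (h : ℕ) (hh : 1 ≤ h) : ∃ (n : ℕ) (G : Finset (Fin n →₀ ℕ)),
    (∀ l, 1 ≤ l → l < h → ¬ PowerDependsOnField G l) ∧ ∀ l, h ≤ l → PowerDependsOnField G l :=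
  ⟨10, GF h, fun _ hl1 hlh => indep h hl1 hlh, fun _ hl => dep h hh hl⟩

end Pool.Agent.Results.MP_8a71fe_al.DependenceFromEveryPower
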